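import Pool.Agent.Q297.RM.Defs

namespace Pool.Agent.Q297.RM.Act

open Equiv

/-- the moduli of the shift -/
def nn (l : ℕ) : ℕ := l + 8
/-- the number of copies -/
def NN (l : ℕ) : ℕ := 3 * l + 1

instance (l : ℕ) : NeZero (nn l) := ⟨by unfold nn; omega⟩
instance (l : ℕ) : NeZero (NN l) := ⟨by unfold NN; omega⟩

abbrev Pm (l : ℕ) : Type := Perm (ZMod (nn l))
abbrev Y (l : ℕ) : Type := ZMod (NN l) × Pm l
abbrev P : Type := ∀ l, Pm l
abbrev B : Type := ∀ l, ZMod (NN l) → Pm l
abbrev W : Type := ∀ l, Perm (Y l)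

/-- left multiplication fibrewise -/
def A : B →* W where
  toFun a := fun l =>
    { toFun := fun p => (p.1, a l p.1 * p.2)
      invFun := fun p => (p.1, (a l p.1)⁻¹ * p.2)
      left_inv := fun p => by simp
      right_inv := fun p => by simp }
  map_one' := by
    funext l; ext p <;> simp
  map_mul' a b := by
    funext l
    apply Equiv.ext
    intro p
    simp [mul_assoc]

@[simp] theorem A_apply (a : B) (l : ℕ) (p : Y l) : A a l p = (p.1, a l p.1 * p.2) := rfl

/-- the rotation of the copies -/
def c : W := fun l => (Equiv.addRight (1 : ZMod (NN l))).prodCongr (Equiv.refl _)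

@[simp] theorem c_apply (l : ℕ) (p : Y l) : c l p = (p.1 + 1, p.2) := rfl

def D : P →* B where
  toFun x := fun l _ => x l
  map_one' := rfl
  map_mul' _ _ := rfl

def I : P →* B where
  toFun x := fun l j => if j = 0 then x l else 1
  map_one' := by funext l j; by_cases h : j = 0 <;> simp [h]
  map_mul' x y := by funext l j; by_cases h : j = 0 <;> simp [h]

@[simp] theorem D_apply (x : P) (l : ℕ) (j : ZMod (NN l)) : D x l j = x l := rfl
@[simp] theorem I_apply (x : P) (l : ℕ) (j : ZMod (NN l)) : I x l j = if j = 0 then x l else 1 := rfl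

/-- conjugation by a diagonal element -/
theorem D_I_conj (s x : P) : D s * I x * (D s)⁻¹ = I (s * x * s⁻¹) := by
  funext l j
  by_cases h : j = 0 <;> simp [h]

/-- the cyclic shift -/
def s : P := fun l => Equiv.addRight (1 : ZMod (nn l))
/-- the first adjacent transposition -/
def t0 : P := fun l => swap (0 : ZMod (nn l)) 1
/-- adjacent transposition number i -/
def t (i : ℕ) : P := s ^ i * t0 * (s ^ i)⁻¹

theorem s_pow_apply (i l : ℕ) (x : ZMod (nn l)) : (s ^ i) l x = x + i := by
  induction i generalizing x with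
  | zero => simp
  | succ i ih =>
    rw [pow_succ]
    simp only [Pi.mul_apply, Perm.mul_apply]
    rw [ih]
    simp [s]
    ring

theorem t_eq (i l : ℕ) : t i l = swap (i : ZMod (nn l)) (i + 1) := by
  have h : t i l = (s ^ i) l * swap 0 1 * ((s ^ i) l)⁻¹ := rfl
  rw [h, ← Equiv.swap_apply_apply]
  rw [s_pow_apply, s_pow_apply, zero_add, add_comm 1]

theorem t_conj (i k : ℕ) : s ^ k * t i * (s ^ k)⁻¹ = t (i + k) := by
  unfold t
  rw [add_comm i k, pow_add]
  group

/-- the graded group -/
def G : Subgroup W := Subgroup.closure {c, A (D s), A (D t0), A (I t0)}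

theorem c_mem : c ∈ G := Subgroup.subset_closure (by simp)
theorem Ds_mem : A (D s) ∈ G := Subgroup.subset_closure (by simp)
theorem Dt0_mem : A (D t0) ∈ G := Subgroup.subset_closure (by simp)
theorem It0_mem : A (I t0) ∈ G := Subgroup.subset_closure (by simp)

theorem Dspow_mem (i : ℕ) : A (D (s ^ i)) ∈ G := by
  rw [map_pow, map_pow]
  exact G.pow_mem Ds_mem i

theorem Dt_mem (i : ℕ) : A (D (t i)) ∈ G := by
  unfold t
  simp only [map_mul, map_inv]
  exact G.mul_mem (G.mul_mem (Dspow_mem i) Dt0_mem) (G.inv_mem (Dspow_mem i))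

theorem It_mem (i : ℕ) : A (I (t i)) ∈ G := by
  unfold t
  rw [← D_I_conj, map_mul, map_mul, map_inv]
  exact G.mul_mem (G.mul_mem (Dspow_mem i) It0_mem) (G.inv_mem (Dspow_mem i))

/-- the embedding of the first eight points -/
def emb (l : ℕ) : Fin 8 ↪ ZMod (nn l) where
  toFun i := ((i.val : ℕ) : ZMod (nn l))
  inj' := by
    intro a b h
    have h' := (ZMod.natCast_eq_natCast_iff' _ _ _).1 h
    have ha : a.val < nn l := lt_of_lt_of_le a.2 (by unfold nn; omega)
    have hb : b.val < nn l := lt_of_lt_of_le b.2 (by unfold nn; omega)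
    rw [Nat.mod_eq_of_lt ha, Nat.mod_eq_of_lt hb] at h'
    exact Fin.ext h'

/-- the diagonal embedding of the symmetric group on eight letters -/
noncomputable def lam : Perm (Fin 8) →* P where
  toFun x := fun l => Equiv.Perm.viaEmbeddingHom (emb l) x
  map_one' := by funext l; simp
  map_mul' x y := by funext l; simp

theorem lam_inj (l : ℕ) (x : Perm (Fin 8)) (h : lam x l = 1) : x = 1 := by
  apply Equiv.Perm.viaEmbeddingHom_injective (emb l)
  rw [map_one]
  exact h

theorem lam_swap (a b : Fin 8) (l : ℕ) : lam (swap a b) l = swap (emb l a) (emb l b) := by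
  apply Equiv.ext
  intro x
  change (swap a b).viaEmbedding (emb l) x = _
  by_cases hx : x ∈ Set.range (emb l)
  · obtain ⟨i, rfl⟩ := hx
    rw [Equiv.Perm.viaEmbedding_apply]
    exact (emb l).injective.map_swap _ _ _
  · rw [Equiv.Perm.viaEmbedding_apply_of_notMem _ _ _ hx]
    rw [swap_apply_of_ne_of_ne]
    · rintro rfl; exact hx ⟨_, rfl⟩
    · rintro rfl; exact hx ⟨_, rfl⟩

/-- adjacent transpositions in the symmetric group on eight letters -/
def q (i : Fin 7) : Perm (Fin 8) := swap i.castSucc i.succ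

theorem lam_q (i : Fin 7) : lam (q i) = t i.val := by
  funext l
  rw [q, lam_swap, t_eq]
  simp [emb]

end Pool.Agent.Q297.RM.Act
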