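import Pool.Agent.Q297.RM.Act

namespace Pool.Agent.Q297.RM.Act

open Equiv
open scoped commutatorElement

/-- membership of the image of the small symmetric group -/
theorem perm8_gen (S : Set (Perm (Fin 8))) (h : ∀ i, q i ∈ S)
    (hS1 : 1 ∈ S) (hSm : ∀ a ∈ S, ∀ b ∈ S, a * b ∈ S) (x : Perm (Fin 8))
    (hx : x ∈ Submonoid.closure (Set.range q)) : x ∈ S := by
  induction hx using Submonoid.closure_induction with
  | mem x hx => obtain ⟨i, rfl⟩ := hx; exact h i
  | one => exact hS1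
  | mul a b _ _ ha hb => exact hSm a ha b hb

abbrev Q8 : Submonoid (Perm (Fin 8)) := Submonoid.closure (Set.range q)

theorem q_mem (i : Fin 7) : q i ∈ Q8 := Submonoid.subset_closure ⟨i, rfl⟩

theorem I_lam_mem (x : Perm (Fin 8)) (hx : x ∈ Q8) : A (I (lam x)) ∈ G := by
  refine perm8_gen {x | A (I (lam x)) ∈ G} ?_ ?_ ?_ x hx
  · intro i; simp only [Set.mem_ofPred_eq, lam_q]; exact It_mem _
  · simp only [Set.mem_ofPred_eq, map_one]; exact G.one_mem
  · intro a ha b hb
    simp only [Set.mem_ofPred_eq, map_mul] at *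
    exact G.mul_mem ha hb

theorem D_lam_mem (x : Perm (Fin 8)) (hx : x ∈ Q8) : A (D (lam x)) ∈ G := by
  refine perm8_gen {x | A (D (lam x)) ∈ G} ?_ ?_ ?_ x hx
  · intro i; simp only [Set.mem_ofPred_eq, lam_q]; exact Dt_mem _
  · simp only [Set.mem_ofPred_eq, map_one]; exact G.one_mem
  · intro a ha b hb
    simp only [Set.mem_ofPred_eq, map_mul] at *
    exact G.mul_mem ha hb

/-- the element acting on the copies other than the copy zero -/
def z : Perm (Fin 8) := q 0 * q 2
/-- the element of order four acting on the copy zero -/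
def y : Perm (Fin 8) := q 0 * q 1 * q 2 * q 4

theorem z_ne : z ≠ 1 := by decide
theorem y_ne : y ≠ 1 := by decide
theorem z_sq : z * z = 1 := by decide
theorem y_sq_ne : y * y ≠ 1 := by decide
theorem y_four : y * y * (y * y) = 1 := by decide

theorem z_mem : z ∈ Q8 := Q8.mul_mem (q_mem _) (q_mem _)
theorem y_mem : y ∈ Q8 := Q8.mul_mem (Q8.mul_mem (Q8.mul_mem (q_mem _) (q_mem _)) (q_mem _)) (q_mem _)
theorem zy_mem : z * y ∈ Q8 := Q8.mul_mem z_mem y_mem

/-- the element whose powers form the finite subgroup -/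
noncomputable def hB : B := fun l j => if j = 0 then lam y l else lam z l

noncomputable def hW : W := A hB

theorem hB_eq : hB = D (lam z) * I (lam (z * y)) := by
  funext l j
  by_cases h : j = 0
  · simp only [hB, h, if_true, Pi.mul_apply, D_apply, I_apply]
    rw [map_mul, Pi.mul_apply, ← mul_assoc, ← Pi.mul_apply, ← map_mul, z_sq, map_one]
    simp
  · simp [hB, h]

theorem hB_sq : hB * hB = I (lam (y * y)) := by
  funext l j
  by_cases h : j = 0
  · simp [hB, h]
  · simp only [hB, h, if_false, Pi.mul_apply, I_apply]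
    rw [← Pi.mul_apply, ← map_mul, z_sq, map_one]
    rfl

theorem hW_sq : hW * hW = A (I (lam (y * y))) := by
  rw [hW, ← map_mul, hB_sq]

theorem hW_four : hW ^ 4 = 1 := by
  have : hW ^ 4 = (hW * hW) * (hW * hW) := by
    simp only [pow_succ, pow_zero, one_mul, mul_assoc]
  rw [this, hW_sq, ← map_mul, ← map_mul, ← map_mul, y_four, map_one, map_one, map_one]

theorem hW_mem : hW ∈ G := by
  rw [hW, hB_eq, map_mul]
  exact G.mul_mem (D_lam_mem _ z_mem) (I_lam_mem _ zy_mem)

theorem swap_same_cube {α : Type} [DecidableEq α] [Fintype α] (a b e : α) (hab : a ≠ b)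
    (hae : a ≠ e) : (swap a b * swap a e) ^ 3 = 1 := by
  by_cases hbe : b = e
  · subst hbe; rw [swap_mul_self, one_pow]
  · have h := (Equiv.Perm.isThreeCycle_swap_mul_swap_same hab hae hbe).orderOf
    rw [← h, pow_orderOf_eq_one]

theorem comm_of_cube {α : Type} [DecidableEq α] [Fintype α] (a b d e : α)
    (h : (swap a b * swap d e) ^ 3 = 1) : ⁅swap a b, swap d e⁆ ^ 3 = 1 := by
  have h1 : ⁅swap a b, swap d e⁆ = (swap a b * swap d e) ^ 2 := by
    rw [commutatorElement_def, swap_inv, swap_inv, pow_two, mul_assoc]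
  rw [h1, ← pow_mul, mul_comm, pow_mul, h, one_pow]

/-- the cube of the commutator of two transpositions -/
theorem comm_swap_cube {α : Type} [DecidableEq α] [Fintype α] (a b d e : α) (hab : a ≠ b)
    (hde : d ≠ e) : ⁅swap a b, swap d e⁆ ^ 3 = 1 := by
  by_cases h1 : a = d
  · subst h1; exact comm_of_cube _ _ _ _ (swap_same_cube _ _ _ hab hde)
  by_cases h2 : a = e
  · subst h2; rw [swap_comm d a]; exact comm_of_cube _ _ _ _ (swap_same_cube _ _ _ hab hde.symm)
  by_cases h3 : b = d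
  · subst h3; rw [swap_comm a b]; exact comm_of_cube _ _ _ _ (swap_same_cube _ _ _ hab.symm hde)
  by_cases h4 : b = e
  · subst h4; rw [swap_comm a b, swap_comm d b]
    exact comm_of_cube _ _ _ _ (swap_same_cube _ _ _ hab.symm hde.symm)
  have h5 : Commute (swap a b) (swap d e) := by
    apply Equiv.Perm.Disjoint.commute
    intro x
    by_cases hx : swap a b x = x
    · exact Or.inl hx
    · right
      have hx' : x = a ∨ x = b := by
        by_contra hn
        push Not at hn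
        exact hx (swap_apply_of_ne_of_ne hn.1 hn.2)
      rcases hx' with rfl | rfl
      · exact swap_apply_of_ne_of_ne h1 h2
      · exact swap_apply_of_ne_of_ne h3 h4
  rw [commutatorElement_eq_one_iff_commute.2 h5, one_pow]

/-! ### Congruences modulo a normalized subgroup -/

/-- replacing the second entry of a commutator by a congruent element -/
theorem comm_congr {R : Subgroup W} (hR : ∀ g ∈ G, ∀ r ∈ R, g * r * g⁻¹ ∈ R)
    {a b r : W} (ha : a ∈ G) (hb : b ∈ G) (hr : r ∈ R) :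
    ⁅a, r * b⁆ ∈ R ↔ ⁅a, b⁆ ∈ R := by
  have key : ⁅a, r * b⁆ * ⁅a, b⁆⁻¹ ∈ R := by
    have h1 : ⁅a, r * b⁆ * ⁅a, b⁆⁻¹ = (a * r * a⁻¹) * (⁅a, b⁆ * r⁻¹ * ⁅a, b⁆⁻¹) := by
      simp only [commutatorElement_def]
      group
    rw [h1]
    have hc : ⁅a, b⁆ ∈ G := by
      rw [commutatorElement_def]
      exact G.mul_mem (G.mul_mem (G.mul_mem ha hb) (G.inv_mem ha)) (G.inv_mem hb)
    exact R.mul_mem (hR a ha r hr) (hR _ hc _ (R.inv_mem hr))
  constructor
  · intro h
    have h2 := R.mul_mem (R.inv_mem key) h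
    have h3 : (⁅a, r * b⁆ * ⁅a, b⁆⁻¹)⁻¹ * ⁅a, r * b⁆ = ⁅a, b⁆ := by group
    rwa [h3] at h2
  · intro h
    have h2 := R.mul_mem key h
    have h3 : ⁅a, r * b⁆ * ⁅a, b⁆⁻¹ * ⁅a, b⁆ = ⁅a, r * b⁆ := by group
    rwa [h3] at h2

/-- conjugating by an element of R changes an element of G only modulo R -/
theorem conj_congr {R : Subgroup W} (hR : ∀ g ∈ G, ∀ r ∈ R, g * r * g⁻¹ ∈ R)
    {b r : W} (hb : b ∈ G) (hr : r ∈ R) :
    ∃ r' ∈ R, r * b * r⁻¹ = r' * b := by
  refine ⟨r * (b * r⁻¹ * b⁻¹), R.mul_mem hr (hR b hb _ (R.inv_mem hr)), ?_⟩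
  group

/-! ### Spreading an element with finite support -/

theorem c_conj (a : B) : c * A a * c⁻¹ = A (fun l j => a l (j - 1)) := by
  rw [mul_inv_eq_iff_eq_mul]
  funext l
  apply Equiv.ext
  intro p
  simp [A]

theorem c_pow_conj (m : ℕ) (a : B) : c ^ m * A a * (c ^ m)⁻¹ = A (fun l j => a l (j - m)) := by
  induction m with
  | zero => simp
  | succ m ih =>
    have : c ^ (m + 1) * A a * (c ^ (m + 1))⁻¹ = c * (c ^ m * A a * (c ^ m)⁻¹) * c⁻¹ := by
      rw [pow_succ']; group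
    rw [this, ih, c_conj]
    congr 1
    funext l j
    congr 1
    push_cast
    ring

open Classical in
/-- cumulative element -/
noncomputable def cum (x : P) (m : ℕ) : B :=
  fun l j => x l ^ (Nat.count (fun i => ((i : ℕ) : ZMod (NN l)) = j) m)

theorem cum_succ (x : P) (m : ℕ) :
    cum x (m + 1) = cum x m * (fun l j => I x l (j - m)) := by
  classical
  funext l j
  simp only [cum, Nat.count_succ, Pi.mul_apply, I_apply]
  by_cases h : ((m : ℕ) : ZMod (NN l)) = j
  · simp [h, pow_succ]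
  · have h' : ¬ (j - m = 0) := fun h' => h (sub_eq_zero.1 h').symm
    simp [h, h']

theorem cum_mem {R : Subgroup W} (hR : ∀ g ∈ G, ∀ r ∈ R, g * r * g⁻¹ ∈ R) {x : P}
    (hx : A (I x) ∈ R) (m : ℕ) : A (cum x m) ∈ R := by
  induction m with
  | zero =>
    have : cum x 0 = 1 := by funext l j; simp [cum]
    rw [this, map_one]; exact R.one_mem
  | succ m ih =>
    rw [cum_succ, map_mul]
    refine R.mul_mem ih ?_
    rw [← c_pow_conj]
    exact hR _ (G.pow_mem c_mem m) _ hx

theorem prod_NN_mod (F : Finset ℕ) : (∏ l ∈ F, NN l) % 3 = 1 := by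
  induction F using Finset.induction_on with
  | empty => simp
  | insert a F ha ih =>
    rw [Finset.prod_insert ha, Nat.mul_mod, ih]
    unfold NN
    omega

theorem spread {R : Subgroup W} (hR : ∀ g ∈ G, ∀ r ∈ R, g * r * g⁻¹ ∈ R) {x : P}
    (hx : A (I x) ∈ R) (k : ℕ) (hk : ∀ l, k ≤ l → x l = 1) (h3 : ∀ l, x l ^ 3 = 1) :
    A (D x) ∈ R := by
  classical
  have h := cum_mem hR hx (∏ l ∈ Finset.range k, NN l)
  have : cum x (∏ l ∈ Finset.range k, NN l) = D x := by
    funext l j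
    simp only [cum, D_apply]
    by_cases hl : k ≤ l
    · rw [hk l hl, one_pow]
    · push Not at hl
      have hdvd : NN l ∣ ∏ l ∈ Finset.range k, NN l :=
        Finset.dvd_prod_of_mem _ (Finset.mem_range.2 hl)
      obtain ⟨d, hd⟩ := hdvd
      have hd3 : d % 3 = 1 := by
        have h1 := prod_NN_mod (Finset.range k)
        rw [hd, Nat.mul_mod] at h1
        have h2 : NN l % 3 = 1 := by unfold NN; omega
        rw [h2] at h1
        omega
      have hcount : Nat.count (fun i => ((i : ℕ) : ZMod (NN l)) = j)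
          (∏ l ∈ Finset.range k, NN l) = d := by
        have h1 : (fun i : ℕ => ((i : ℕ) : ZMod (NN l)) = j) = (fun i => i ≡ j.val [MOD NN l]) := by
          funext i
          rw [← ZMod.natCast_eq_natCast_iff]
          rw [ZMod.natCast_zmod_val]
        have hpos : 0 < NN l := Nat.pos_of_ne_zero (NeZero.ne _)
        have h2 : Nat.count (fun i => i ≡ j.val [MOD NN l]) (NN l * d) = d := by
          rw [Nat.count_modEq_card _ hpos]
          rw [Nat.mul_div_cancel_left _ hpos, Nat.mul_mod_right]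
          simp
        rw [hd]
        rw [← h2]
        congr 1
        rw [h2]
      rw [hcount]
      have hd4 : d = 3 * (d / 3) + 1 := by omega
      rw [hd4, pow_succ, pow_mul, h3, one_pow, one_mul]
  rwa [this] at h

/-! ### The key lemma -/

/-- membership of the conjugates, in the small symmetric group -/
theorem I_lam_conj {R : Subgroup W} (hR : ∀ g ∈ G, ∀ r ∈ R, g * r * g⁻¹ ∈ R)
    (g x : Perm (Fin 8)) (hg : g ∈ Q8) (hx : A (I (lam x)) ∈ R) :
    A (I (lam (g * x * g⁻¹))) ∈ R := by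
  have := hR _ (I_lam_mem g hg) _ hx
  simpa only [map_mul, map_inv] using this

theorem D_lam_conj {R : Subgroup W} (hR : ∀ g ∈ G, ∀ r ∈ R, g * r * g⁻¹ ∈ R)
    (g x : Perm (Fin 8)) (hg : g ∈ Q8) (hx : A (D (lam x)) ∈ R) :
    A (D (lam (g * x * g⁻¹))) ∈ R := by
  have := hR _ (D_lam_mem g hg) _ hx
  simpa only [map_mul, map_inv] using this

/-- membership of the double transposition, from a three-cycle -/
theorem z_of_cycle (S : Set (Perm (Fin 8))) (hS : ⁅q 1, q 0⁆ ∈ S)
    (hSm : ∀ a ∈ S, ∀ b ∈ S, a * b ∈ S)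
    (hSc : ∀ g ∈ Q8, ∀ a ∈ S, g * a * g⁻¹ ∈ S) : z ∈ S := by
  have h1 : ⁅q 1, q 0⁆ = q 0 * q 1 := by decide
  have h2 : (q 0 * q 1 * q 2) * (q 0 * q 1) * (q 0 * q 1 * q 2)⁻¹ = q 1 * q 2 := by decide
  have h3 : z = (q 0 * q 1) * (q 1 * q 2) := by decide
  rw [h1] at hS
  rw [h3]
  refine hSm _ hS _ ?_
  rw [← h2]
  exact hSc _ (Q8.mul_mem (Q8.mul_mem (q_mem _) (q_mem _)) (q_mem _)) _ hS

theorem t_zero : t 0 = t0 := by unfold t; simp

theorem comm_t_eq : lam ⁅q 1, q 0⁆ = ⁅t 1, t0⁆ := by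
  rw [map_commutatorElement, lam_q, lam_q]
  rw [← t_zero]
  rfl

theorem comm_t_cube (k l : ℕ) : ⁅t 1, t k⁆ l ^ 3 = 1 := by
  have h : ⁅t 1, t k⁆ l = ⁅t 1 l, t k l⁆ := rfl
  rw [h, t_eq, t_eq]
  have h1 : (1 : ZMod (nn l)) ≠ 0 := by
    have : Fact (1 < nn l) := ⟨by unfold nn; omega⟩
    exact one_ne_zero
  apply comm_swap_cube
  · intro h2; exact h1 (by simpa using h2)
  · intro h2; exact h1 (by simpa using h2)

theorem comm_t_far (k l : ℕ) (hk3 : 3 ≤ k) (hl : k ≤ l) : ⁅t 1, t k⁆ l = 1 := by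
  have h : ⁅t 1, t k⁆ l = ⁅t 1 l, t k l⁆ := rfl
  rw [h, t_eq, t_eq, commutatorElement_eq_one_iff_commute]
  have hne : ∀ a b : ℕ, a < b → b < nn l → ((a : ℕ) : ZMod (nn l)) ≠ ((b : ℕ) : ZMod (nn l)) := by
    intro a b hab hb hE
    have h' := (ZMod.natCast_eq_natCast_iff' _ _ _).1 hE
    rw [Nat.mod_eq_of_lt (hab.trans hb), Nat.mod_eq_of_lt hb] at h'
    omega
  have h1 := hne 1 k (by omega) (by unfold nn; omega)
  have h2 := hne 1 (k + 1) (by omega) (by unfold nn; omega)
  have h3 := hne 2 k (by omega) (by unfold nn; omega)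
  have h4 := hne 2 (k + 1) (by omega) (by unfold nn; omega)
  have e2 : (((1 : ℕ) : ZMod (nn l)) + 1) = ((2 : ℕ) : ZMod (nn l)) := by
    push_cast; norm_num
  have e3 : (((k : ℕ) : ZMod (nn l)) + 1) = ((k + 1 : ℕ) : ZMod (nn l)) := by
    push_cast; rfl
  rw [e2, e3]
  generalize ((1 : ℕ) : ZMod (nn l)) = a at *
  generalize ((2 : ℕ) : ZMod (nn l)) = b at *
  generalize ((k : ℕ) : ZMod (nn l)) = d at *
  generalize ((k + 1 : ℕ) : ZMod (nn l)) = e at *
  apply Equiv.Perm.Disjoint.commute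
  intro x
  by_cases hx : swap a b x = x
  · exact Or.inl hx
  · right
    have hx' : x = a ∨ x = b := by
      by_contra hn
      push Not at hn
      exact hx (swap_apply_of_ne_of_ne hn.1 hn.2)
    rcases hx' with rfl | rfl
    · exact swap_apply_of_ne_of_ne h1 h2
    · exact swap_apply_of_ne_of_ne h3 h4

set_option maxRecDepth 4000 in
/-- In every quotient of G in which the shift has finite order, if the square of the special
element is trivial, then so is the special element. -/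
theorem key {R : Subgroup W} (hR : ∀ g ∈ G, ∀ r ∈ R, g * r * g⁻¹ ∈ R)
    (k : ℕ) (hk3 : 3 ≤ k) (hk : A (D s) ^ k ∈ R) (hsq : hW * hW ∈ R) : hW ∈ R := by
  have hk' : A (D (s ^ k)) ∈ R := by
    rw [map_pow, map_pow]; exact hk
  -- a three cycle on the copy zero
  have h1 : A (I (lam (y * y))) ∈ R := by rwa [hW_sq] at hsq
  have h2 : A (I (lam ⁅y * y, q 3⁆)) ∈ R := by
    have e1 : ⁅y * y, q 3⁆ = (y * y) * (q 3 * (y * y)⁻¹ * (q 3)⁻¹) := by
      rw [commutatorElement_def]; group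
    rw [e1, map_mul, map_mul, map_mul]
    refine R.mul_mem h1 (I_lam_conj hR _ _ (q_mem _) ?_)
    rw [map_inv, map_inv, map_inv]
    exact R.inv_mem h1
  have h3 : A (I (lam ⁅q 1, q 0⁆)) ∈ R := by
    have e1 : ⁅q 1, q 0⁆ = (q 0 * q 2 * q 1 * q 0 * q 3 * q 2) * ⁅y * y, q 3⁆ *
        (q 0 * q 2 * q 1 * q 0 * q 3 * q 2)⁻¹ := by decide
    rw [e1]
    refine I_lam_conj hR _ _ ?_ h2
    exact Q8.mul_mem (Q8.mul_mem (Q8.mul_mem (Q8.mul_mem (Q8.mul_mem (q_mem _) (q_mem _))
      (q_mem _)) (q_mem _)) (q_mem _)) (q_mem _)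
  have h4 : A (I (lam z)) ∈ R := by
    refine z_of_cycle {x | A (I (lam x)) ∈ R} h3 ?_ ?_
    · intro a ha b hb
      simp only [Set.mem_ofPred_eq, map_mul] at *
      exact R.mul_mem ha hb
    · intro g hg a ha
      exact I_lam_conj hR _ _ hg ha
  have h5 : A (I (lam (z * y))) ∈ R := by
    have e1 : z * y = (q 0 * q 2 * q 1 * q 3 * q 2 * q 4 * q 3) * z *
        (q 0 * q 2 * q 1 * q 3 * q 2 * q 4 * q 3)⁻¹ := by decide
    rw [e1]
    refine I_lam_conj hR _ _ ?_ h4
    exact Q8.mul_mem (Q8.mul_mem (Q8.mul_mem (Q8.mul_mem (Q8.mul_mem (Q8.mul_mem (q_mem _)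
      (q_mem _)) (q_mem _)) (q_mem _)) (q_mem _)) (q_mem _)) (q_mem _)
  -- pass to a distant transposition
  have h6 : A (I ⁅t 1, t k⁆) ∈ R := by
    rw [map_commutatorElement, map_commutatorElement]
    have e1 : A (I (t k)) = A (D (s ^ k)) * A (I t0) * (A (D (s ^ k)))⁻¹ := by
      rw [← map_inv, ← map_mul, ← map_mul, D_I_conj]; rfl
    obtain ⟨r', hr', e2⟩ := conj_congr hR It0_mem hk'
    rw [e1, e2, comm_congr hR (It_mem 1) It0_mem hr']
    rw [← map_commutatorElement, ← map_commutatorElement, ← comm_t_eq]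
    exact h3
  have h7 : A (D ⁅t 1, t k⁆) ∈ R :=
    spread hR h6 k (fun l hl => comm_t_far k l hk3 hl) (fun l => comm_t_cube k l)
  have h8 : A (D (lam ⁅q 1, q 0⁆)) ∈ R := by
    rw [map_commutatorElement, map_commutatorElement] at h7
    have e1 : A (D (t k)) = A (D (s ^ k)) * A (D t0) * (A (D (s ^ k)))⁻¹ := by
      rw [← map_inv, ← map_inv, ← map_mul, ← map_mul, ← map_mul, ← map_mul]; rfl
    obtain ⟨r', hr', e2⟩ := conj_congr hR Dt0_mem hk'
    rw [e1, e2, comm_congr hR (Dt_mem 1) Dt0_mem hr'] at h7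
    rw [← map_commutatorElement, ← map_commutatorElement, ← comm_t_eq] at h7
    exact h7
  have h9 : A (D (lam z)) ∈ R := by
    refine z_of_cycle {x | A (D (lam x)) ∈ R} h8 ?_ ?_
    · intro a ha b hb
      simp only [Set.mem_ofPred_eq, map_mul] at *
      exact R.mul_mem ha hb
    · intro g hg a ha
      exact D_lam_conj hR _ _ hg ha
  rw [hW, hB_eq, map_mul]
  exact R.mul_mem h9 h5

end Pool.Agent.Q297.RM.Act
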