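import Pool.Agent.Q297.RM.Act2

namespace Pool.Agent.Q297.RM.Act

open Equiv

/-- the special element, as an element of G -/
noncomputable def hG : G := ⟨hW, hW_mem⟩

/-- the finite subgroup -/
noncomputable def H : Subgroup G := Subgroup.zpowers hG

theorem hG_four : hG ^ 4 = 1 := by
  apply Subtype.ext
  exact hW_four

theorem H_finite : Finite H := by
  have h : IsOfFinOrder hG := isOfFinOrder_iff_pow_eq_one.2 ⟨4, by norm_num, hG_four⟩
  exact (finite_zpowers.2 h).to_subtype

theorem G_fg : Group.FG G := by
  rw [Group.fg_iff_subgroup_fg]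
  have : ({c, A (D s), A (D t0), A (I t0)} : Set W).Finite := by
    exact Set.toFinite _
  exact (Subgroup.fg_iff _).2 ⟨_, rfl, this⟩

/-- In a finite quotient, if the square of the special element acts trivially, then so does the
special element. -/
theorem key_hom {Q : Type} [Group Q] [Finite Q] (θ : G →* Q) (h2 : θ hG * θ hG = 1) :
    θ hG = 1 := by
  let R : Subgroup W := θ.ker.map G.subtype
  have hR : ∀ g ∈ G, ∀ r ∈ R, g * r * g⁻¹ ∈ R := by
    rintro g hg r ⟨r', hr', rfl⟩
    refine ⟨⟨g, hg⟩ * r' * ⟨g, hg⟩⁻¹, ?_, rfl⟩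
    have h : θ r' = 1 := hr'
    change θ _ = 1
    rw [map_mul, map_mul, h, mul_one, ← map_mul, mul_inv_cancel, map_one]
  have hcard : 0 < Nat.card Q := Nat.card_pos
  have hk : A (D s) ^ (3 * Nat.card Q) ∈ R := by
    refine ⟨⟨A (D s), Ds_mem⟩ ^ (3 * Nat.card Q), ?_, rfl⟩
    change θ _ = 1
    rw [map_pow, mul_comm, pow_mul, pow_card_eq_one', one_pow]
  have hsq : hW * hW ∈ R := by
    refine ⟨hG * hG, ?_, rfl⟩
    change θ _ = 1
    rw [map_mul, h2]
  obtain ⟨r, hr, hr2⟩ := key hR (3 * Nat.card Q) (by omega) hk hsq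
  have : r = hG := Subtype.ext hr2
  rw [← this]
  exact hr

/-- the action of G on the l-th block -/
def act (l : ℕ) : G →* Perm (Y l) := (Pi.evalMonoidHom (fun l => Perm (Y l)) l).comp G.subtype

theorem act_hG (l : ℕ) (p : Y l) : act l hG p = (p.1, hB l p.1 * p.2) := rfl

theorem act_hG_ne (l : ℕ) (p : Y l) : act l hG p ≠ p := by
  intro h
  rw [act_hG] at h
  have h2 := congrArg Prod.snd h
  simp only [mul_eq_right] at h2
  by_cases hp : p.1 = 0
  · simp only [hB, hp, if_true] at h2
    exact y_ne (lam_inj l y h2)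
  · simp only [hB, hp, if_false] at h2
    exact z_ne (lam_inj l z h2)

theorem act_hG2 (l : ℕ) (p : Y l) (hp : p.1 ≠ 0) : act l (hG * hG) p = p := by
  rw [map_mul, Perm.mul_apply, act_hG, act_hG]
  simp only [hB, hp, if_false]
  rw [← mul_assoc, ← Pi.mul_apply, ← map_mul, z_sq, map_one]
  simp

theorem not_finGen : ¬ FinGenActions G H := by
  rintro ⟨k, X, hX, ρ, hgen⟩
  classical
  have := hX
  let _ : ∀ i, Fintype (X i) := fun i => Fintype.ofFinite _
  -- a bound for the cardinalities
  let K : ℕ := ∑ i, Fintype.card (X i)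
  have hK : ∀ i, Fintype.card (X i) ≤ K := fun i =>
    Finset.single_le_sum (f := fun i => Fintype.card (X i)) (fun _ _ => Nat.zero_le _)
      (Finset.mem_univ i)
  obtain ⟨r, L, e, he⟩ := hgen (Y K) inferInstance (act K)
  have hh : hG ∈ H := Subgroup.mem_zpowers _
  have hh2 : hG * hG ∈ H := H.mul_mem hh hh
  -- the special element has no fixed points in the pieces
  have hfree : ∀ (j : Fin r) (x : X (L j)), ρ (L j) hG x ≠ x := by
    intro j x hx
    have h1 := he hG hh j x
    rw [hx] at h1
    exact act_hG_ne K _ h1.symm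
  -- moved points in the pieces
  let M : ∀ j : Fin r, Finset (X (L j)) :=
    fun j => Finset.univ.filter (fun x => ρ (L j) (hG * hG) x ≠ x)
  have hM : ∀ j, Fintype.card (X (L j)) ≤ K * (M j).card := by
    intro j
    by_cases hne : Nonempty (X (L j))
    · obtain ⟨x⟩ := hne
      have h1 : ρ (L j) hG ≠ 1 := by
        intro h1
        apply hfree j x
        rw [h1]; rfl
      have h2 : ρ (L j) hG * ρ (L j) hG ≠ 1 := fun h2 => h1 (key_hom _ h2)
      have h3 : (M j).Nonempty := by
        by_contra h3
        rw [Finset.not_nonempty_iff_eq_empty] at h3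
        apply h2
        apply Equiv.ext
        intro w
        by_contra h4
        have h5 : w ∈ M j := by
          simp only [M, Finset.mem_filter, Finset.mem_univ, true_and]
          rw [map_mul]
          exact h4
        rw [h3] at h5
        exact absurd h5 (Finset.notMem_empty _)
      have h4 : 1 ≤ (M j).card := h3.card_pos
      calc Fintype.card (X (L j)) ≤ K := hK _
        _ ≤ K * (M j).card := Nat.le_mul_of_pos_right _ h4
    · rw [not_nonempty_iff] at hne
      rw [Fintype.card_eq_zero]
      exact Nat.zero_le _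
  have hcard1 : Fintype.card (Y K) = ∑ j, Fintype.card (X (L j)) := by
    rw [← Fintype.card_congr e, Fintype.card_sigma]
  have hcard2 : (∑ j, (M j).card) ≤ Fintype.card (Pm K) := by
    rw [← Finset.card_sigma]
    rw [← Finset.card_univ (α := Pm K)]
    refine Finset.card_le_card_of_injOn (fun q => (e q).2) (fun _ _ => Finset.mem_univ _) ?_
    have hz : ∀ q : (Σ j, X (L j)), q ∈ Finset.univ.sigma M → (e q).1 = 0 := by
      rintro ⟨j, x⟩ hq
      by_contra h1
      simp only [Finset.mem_sigma, Finset.mem_univ, true_and, M, Finset.mem_filter] at hq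
      have h2 := he (hG * hG) hh2 j x
      rw [act_hG2 K _ h1] at h2
      have h3 := e.injective h2
      apply hq
      simpa using h3
    intro a ha b hb hab
    apply e.injective
    apply Prod.ext
    · rw [hz a ha, hz b hb]
    · exact hab
  have hfin : NN K * Fintype.card (Pm K) ≤ K * Fintype.card (Pm K) := by
    calc NN K * Fintype.card (Pm K) = Fintype.card (Y K) := by
          rw [Fintype.card_prod, ZMod.card]
      _ = ∑ j, Fintype.card (X (L j)) := hcard1
      _ ≤ ∑ j, K * (M j).card := Finset.sum_le_sum (fun j _ => hM j)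
      _ = K * ∑ j, (M j).card := by rw [Finset.mul_sum]
      _ ≤ K * Fintype.card (Pm K) := Nat.mul_le_mul_left _ hcard2
  have hpos : 0 < Fintype.card (Pm K) := Fintype.card_pos
  have := Nat.le_of_mul_le_mul_right hfin hpos
  unfold NN at this
  omega

theorem main : ∃ (G : Type) (_ : Group G) (_ : Group.FG G) (H : Subgroup G) (_ : Finite H),
    ¬ FinGenActions G H :=
  ⟨G, inferInstance, G_fg, H, H_finite, not_finGen⟩

end Pool.Agent.Q297.RM.Act
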