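import Mathlib

/-!
# Finite generation of the monoid of restricted actions

`FinGenActions G H` says that the submonoid of `Λ⁺(H)` formed by the classes of restrictions to
`H` of finite `G`-sets is finitely generated: there are finitely many finite `G`-sets `X i` such
that every finite `G`-set is, as an `H`-set, isomorphic to a disjoint union of finitely many
copies of them.
-/

namespace Pool.Agent.Q297.RM

/-- Setting (A): the image of the restriction map `i^* : Λ⁺(G) → Λ⁺(H)` is finitely generated.
There are finitely many finite `G`-sets `X 0, …, X (k-1)` such that every finite `G`-set `Y` is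
isomorphic, as an `H`-set, to a disjoint union of finitely many of the `X i`
(with repetitions allowed). -/
def FinGenActions (G : Type) [Group G] (H : Subgroup G) : Prop :=
  ∃ (k : ℕ) (X : Fin k → Type) (_ : ∀ i, Finite (X i)) (ρ : ∀ i, G →* Equiv.Perm (X i)),
    ∀ (Y : Type) (_ : Finite Y) (ψ : G →* Equiv.Perm Y),
      ∃ (r : ℕ) (L : Fin r → Fin k) (e : (Σ j : Fin r, X (L j)) ≃ Y),
        ∀ h ∈ H, ∀ (j : Fin r) (x : X (L j)), e ⟨j, ρ (L j) h x⟩ = ψ h (e ⟨j, x⟩)

end Pool.Agent.Q297.RM
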